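import Mathlib
import Pool.Agent.H242R3.ES.StmtsN

/-!
Project H242-ES (helper242), task N5 (helper174): the flags of faces above a ray of a cone form a
pseudomanifold.
-/

set_option autoImplicit false
set_option maxHeartbeats 4000000

open Finset
open scoped Classical

namespace Pool.Agent.H242R3.ES.N5H174

open Pool.Agent.H242R3.ES

section
variable {ι E : Type} [Fintype ι] [AddCommGroup E] [Module ℝ E] [FiniteDimensional ℝ E]

/-- common data -/
structure Ctx (V : ι → E) (j : ι) (m : ℕ) : Prop where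
  g2 : ∀ S T : Set ι, Face V S → Face V T → S ⊂ T → rk V S < rk V T
  g3 : ∀ R S : Set ι, Face V R → Face V S → R ⊂ S → ∃ T, T ⊆ S ∧ Cov V R T
  g4 : ∀ R S : Set ι, Face V R → Face V S → R ⊂ S → rk V S = rk V R + 2 →
    ∀ T, Cov V R T → T ⊆ S → ∃! T', (Cov V R T' ∧ T' ⊆ S) ∧ T' ≠ T
  fj : Face V {j}
  fu : Face V Set.univ
  rj : rk V {j} = 1
  ru : rk V (Set.univ : Set ι) = m + 2

/-- chains of proper faces above `j` -/
def Ch (V : ι → E) (j : ι) (c : Finset (Set ι)) : Prop :=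
  (∀ T ∈ c, T ∈ FA V j) ∧ ∀ T ∈ c, ∀ T' ∈ c, T ⊆ T' ∨ T' ⊆ T

variable {V : ι → E} {j : ι} {m : ℕ}

theorem Ctx.mono (h : Ctx V j m) {U W : Set ι} (hU : Face V U) (hW : Face V W)
    (hc : U ⊆ W ∨ W ⊆ U) (hr : rk V U ≤ rk V W) : U ⊆ W := by
  rcases hc with hc | hc
  · exact hc
  · by_contra hn
    have h1 : W ⊂ U := ⟨hc, hn⟩
    have := h.g2 W U hW hU h1
    omega

theorem Ctx.inter (h : Ctx V j m) : ∀ (n : ℕ) (R S : Set ι) (r : ℕ), Face V R → Face V S →
    R ⊆ S → rk V R + n = r → r ≤ rk V S →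
    ∃ T, Face V T ∧ R ⊆ T ∧ T ⊆ S ∧ rk V T = r := by
  intro n
  induction n with
  | zero =>
    intro R S r hR hS hRS hr hrS
    exact ⟨R, hR, subset_rfl, hRS, by omega⟩
  | succ n ih =>
    intro R S r hR hS hRS hr hrS
    have hne : R ⊂ S := by
      refine ⟨hRS, fun hSR => ?_⟩
      have h1 : R = S := Set.Subset.antisymm hRS hSR
      rw [← h1] at hrS
      omega
    obtain ⟨T, hTS, hc⟩ := h.g3 R S hR hS hne
    obtain ⟨T', h1, h2, h3, h4⟩ := ih T S r hc.2.1 hS hTS (by rw [hc.2.2.2]; omega) hrS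
    exact ⟨T', h1, hc.2.2.1.1.trans h2, h3, h4⟩

theorem Ctx.fa_rk (h : Ctx V j m) {T : Set ι} (hT : T ∈ FA V j) :
    2 ≤ rk V T ∧ rk V T ≤ m + 1 := by
  obtain ⟨h1, h2, h3, h4⟩ := hT
  have h5 : ({j} : Set ι) ⊂ T :=
    ⟨Set.singleton_subset_iff.2 h2, fun hc =>
      h3 (Set.Subset.antisymm hc (Set.singleton_subset_iff.2 h2))⟩
  have h6 : T ⊂ Set.univ := Set.ssubset_univ_iff.2 h4
  have h7 := h.g2 _ _ h.fj h1 h5
  have h8 := h.g2 _ _ h1 h.fu h6
  rw [h.rj] at h7
  rw [h.ru] at h8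
  omega

theorem Ctx.fa_of (h : Ctx V j m) {T : Set ι} (h1 : Face V T) (h2 : j ∈ T) (h3 : 2 ≤ rk V T)
    (h4 : rk V T ≤ m + 1) : T ∈ FA V j := by
  refine ⟨h1, h2, ?_, ?_⟩
  · rintro rfl
    rw [h.rj] at h3
    omega
  · rintro rfl
    rw [h.ru] at h4
    omega

/-- the chain with both ends -/
noncomputable def pl (j : ι) (c : Finset (Set ι)) : Finset (Set ι) :=
  insert {j} (insert Set.univ c)

theorem mem_pl {c : Finset (Set ι)} {U : Set ι} :
    U ∈ pl j c ↔ U = {j} ∨ U = Set.univ ∨ U ∈ c := by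
  simp [pl]

theorem Ctx.pl_face (h : Ctx V j m) {c : Finset (Set ι)} (hc : Ch V j c) {U : Set ι}
    (hU : U ∈ pl j c) : Face V U ∧ j ∈ U := by
  rcases mem_pl.1 hU with rfl | rfl | hU
  · exact ⟨h.fj, rfl⟩
  · exact ⟨h.fu, trivial⟩
  · exact ⟨(hc.1 U hU).1, (hc.1 U hU).2.1⟩

theorem Ctx.pl_comp (h : Ctx V j m) {c : Finset (Set ι)} (hc : Ch V j c) {U W : Set ι}
    (hU : U ∈ pl j c) (hW : W ∈ pl j c) : U ⊆ W ∨ W ⊆ U := by
  have hjU := (h.pl_face hc hU).2
  have hjW := (h.pl_face hc hW).2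
  rcases mem_pl.1 hU with hU1 | hU1 | hU1
  · left; rw [hU1]; exact Set.singleton_subset_iff.2 hjW
  · right; rw [hU1]; exact Set.subset_univ _
  · rcases mem_pl.1 hW with hW1 | hW1 | hW1
    · right; rw [hW1]; exact Set.singleton_subset_iff.2 hjU
    · left; rw [hW1]; exact Set.subset_univ _
    · exact hc.2 U hU1 W hW1

theorem Ctx.pl_mono (h : Ctx V j m) {c : Finset (Set ι)} (hc : Ch V j c) {U W : Set ι}
    (hU : U ∈ pl j c) (hW : W ∈ pl j c) (hr : rk V U ≤ rk V W) : U ⊆ W :=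
  h.mono (h.pl_face hc hU).1 (h.pl_face hc hW).1 (h.pl_comp hc hU hW) hr

theorem Ctx.pl_inj (h : Ctx V j m) {c : Finset (Set ι)} (hc : Ch V j c) {U W : Set ι}
    (hU : U ∈ pl j c) (hW : W ∈ pl j c) (hr : rk V U = rk V W) : U = W :=
  Set.Subset.antisymm (h.pl_mono hc hU hW hr.le) (h.pl_mono hc hW hU hr.ge)

theorem sub_pl {c : Finset (Set ι)} {U : Set ι} (hU : U ∈ c) : U ∈ pl j c :=
  mem_pl.2 (Or.inr (Or.inr hU))

theorem Ctx.image_sub (h : Ctx V j m) {c : Finset (Set ι)} (hc : Ch V j c) :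
    c.image (rk V) ⊆ Finset.Icc 2 (m + 1) := by
  intro r hr
  obtain ⟨T, hT, rfl⟩ := Finset.mem_image.1 hr
  have := h.fa_rk (hc.1 T hT)
  exact Finset.mem_Icc.2 this

theorem Ctx.card_image (h : Ctx V j m) {c : Finset (Set ι)} (hc : Ch V j c) :
    (c.image (rk V)).card = c.card := by
  apply Finset.card_image_of_injOn
  intro U hU W hW hr
  exact h.pl_inj hc (sub_pl hU) (sub_pl hW) hr

theorem Ctx.card_le (h : Ctx V j m) {c : Finset (Set ι)} (hc : Ch V j c) : c.card ≤ m := by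
  rw [← h.card_image hc]
  refine (Finset.card_le_card (h.image_sub hc)).trans ?_
  rw [Nat.card_Icc]
  omega

theorem Ctx.full (h : Ctx V j m) {c : Finset (Set ι)} (hc : Ch V j c) (hm : c.card = m)
    (r : ℕ) (h1 : 1 ≤ r) (h2 : r ≤ m + 2) : ∃ U ∈ pl j c, rk V U = r := by
  by_cases hr1 : r = 1
  · exact ⟨{j}, mem_pl.2 (Or.inl rfl), by rw [h.rj, hr1]⟩
  by_cases hr2 : r = m + 2
  · exact ⟨Set.univ, mem_pl.2 (Or.inr (Or.inl rfl)), by rw [h.ru, hr2]⟩
  have h3 : c.image (rk V) = Finset.Icc 2 (m + 1) := by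
    apply Finset.eq_of_subset_of_card_le (h.image_sub hc)
    rw [h.card_image hc, hm, Nat.card_Icc]
    omega
  have h4 : r ∈ c.image (rk V) := by
    rw [h3, Finset.mem_Icc]
    omega
  obtain ⟨T, hT, hr⟩ := Finset.mem_image.1 h4
  exact ⟨T, sub_pl hT, hr⟩

theorem Ctx.extend (h : Ctx V j m) : ∀ (n : ℕ) (c : Finset (Set ι)), Ch V j c →
    c.card + n = m → ∃ s, Ch V j s ∧ s.card = m ∧ c ⊆ s := by
  intro n
  induction n with
  | zero =>
    intro c hc hn
    exact ⟨c, hc, by omega, subset_rfl⟩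
  | succ n ih =>
    intro c hc hn
    have h1 : ∃ r ∈ Finset.Icc 2 (m + 1), r ∉ c.image (rk V) := by
      by_contra hcon
      push Not at hcon
      have h2 := Finset.card_le_card (show Finset.Icc 2 (m + 1) ⊆ c.image (rk V) from hcon)
      rw [h.card_image hc, Nat.card_Icc] at h2
      omega
    obtain ⟨r, hr, hrc⟩ := h1
    have hr' := Finset.mem_Icc.1 hr
    obtain ⟨L, hL, hLmax⟩ := Finset.exists_max_image ((pl j c).filter fun U => rk V U < r) (rk V)
      ⟨{j}, Finset.mem_filter.2 ⟨mem_pl.2 (Or.inl rfl), by rw [h.rj]; omega⟩⟩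
    obtain ⟨W, hW, hWmin⟩ := Finset.exists_min_image ((pl j c).filter fun U => r < rk V U) (rk V)
      ⟨Set.univ, Finset.mem_filter.2 ⟨mem_pl.2 (Or.inr (Or.inl rfl)), by rw [h.ru]; omega⟩⟩
    have hL' := Finset.mem_filter.1 hL
    have hW' := Finset.mem_filter.1 hW
    have hLW : L ⊆ W := h.pl_mono hc hL'.1 hW'.1 (by omega)
    obtain ⟨T, hT1, hT2, hT3, hT4⟩ := h.inter (r - rk V L) L W r (h.pl_face hc hL'.1).1
      (h.pl_face hc hW'.1).1 hLW (by omega) (by omega)
    have hTc : T ∉ c := fun hTc => hrc (Finset.mem_image.2 ⟨T, hTc, hT4⟩)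
    have hcmp : ∀ U ∈ c, U ⊆ T ∨ T ⊆ U := by
      intro U hU
      have hUr : rk V U ≠ r := fun hUr => hrc (Finset.mem_image.2 ⟨U, hU, hUr⟩)
      rcases lt_or_gt_of_ne hUr with hlt | hgt
      · left
        have h5 := hLmax U (Finset.mem_filter.2 ⟨sub_pl hU, hlt⟩)
        exact (h.pl_mono hc (sub_pl hU) hL'.1 h5).trans hT2
      · right
        have h5 := hWmin U (Finset.mem_filter.2 ⟨sub_pl hU, hgt⟩)
        exact hT3.trans (h.pl_mono hc hW'.1 (sub_pl hU) h5)
    have hch : Ch V j (insert T c) := by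
      refine ⟨?_, ?_⟩
      · intro U hU
        rcases Finset.mem_insert.1 hU with rfl | hU
        · exact h.fa_of hT1 (hT2 (h.pl_face hc hL'.1).2) (by omega) (by omega)
        · exact hc.1 U hU
      · intro U hU W' hW'
        rcases Finset.mem_insert.1 hU with hU1 | hU
        · rcases Finset.mem_insert.1 hW' with hW1 | hW'
          · left; rw [hU1, hW1]
          · rw [hU1]; exact (hcmp W' hW').symm
        · rcases Finset.mem_insert.1 hW' with hW1 | hW'
          · rw [hW1]; exact hcmp U hU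
          · exact hc.2 U hU W' hW'
    obtain ⟨s, h6, h7, h8⟩ := ih (insert T c) hch (by
      rw [Finset.card_insert_of_notMem hTc]; omega)
    exact ⟨s, h6, h7, (Finset.subset_insert _ _).trans h8⟩

theorem mem_Fl {s : Finset (Set ι)} : s ∈ Fl V j m ↔ s.card = m ∧ Ch V j s := by
  unfold Fl Ch
  rw [Finset.mem_filter]
  simp

/-- the neighbouring flag -/
theorem Ctx.two (h : Ctx V j m) {s : Finset (Set ι)} (hs : Ch V j s) (hm : s.card = m)
    {T : Set ι} (hT : T ∈ s) :
    ∃! s' : Finset (Set ι), s' ∈ Fl V j m ∧ s' ≠ s ∧ s.erase T ⊆ s' := by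
  have hrT := h.fa_rk (hs.1 T hT)
  obtain ⟨R, hR, hRr⟩ := h.full hs hm (rk V T - 1) (by omega) (by omega)
  obtain ⟨S, hS, hSr⟩ := h.full hs hm (rk V T + 1) (by omega) (by omega)
  have hTp := sub_pl (j := j) hT
  have hRT : R ⊆ T := h.pl_mono hs hR hTp (by omega)
  have hTS : T ⊆ S := h.pl_mono hs hTp hS (by omega)
  have hRT' : R ⊂ T := ⟨hRT, fun hc => by
    have : R = T := Set.Subset.antisymm hRT hc
    rw [this] at hRr
    omega⟩
  have hRS' : R ⊂ S := ⟨hRT.trans hTS, fun hc => by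
    have : R = S := Set.Subset.antisymm (hRT.trans hTS) hc
    rw [this] at hRr
    omega⟩
  have hRf := h.pl_face hs hR
  have hSf := h.pl_face hs hS
  have hTf := h.pl_face hs hTp
  have hcov : Cov V R T := ⟨hRf.1, hTf.1, hRT', by omega⟩
  obtain ⟨T', ⟨⟨hT'c, hT'S⟩, hT'T⟩, huniq⟩ := h.g4 R S hRf.1 hSf.1 hRS' (by omega) T hcov hTS
  have hT'r : rk V T' = rk V T := by
    have := hT'c.2.2.2
    omega
  have hT's : T' ∉ s := by
    intro hc
    exact hT'T (h.pl_inj hs (sub_pl hc) hTp hT'r)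
  have hT'e : T' ∉ s.erase T := fun hc => hT's (Finset.mem_of_mem_erase hc)
  have herk : ∀ U ∈ s.erase T, rk V U ≠ rk V T := by
    intro U hU hr
    exact (Finset.ne_of_mem_erase hU)
      (h.pl_inj hs (sub_pl (Finset.mem_of_mem_erase hU)) hTp hr)
  have hcmp : ∀ U ∈ s.erase T, U ⊆ T' ∨ T' ⊆ U := by
    intro U hU
    have hUs := Finset.mem_of_mem_erase hU
    rcases lt_or_gt_of_ne (herk U hU) with hlt | hgt
    · left
      exact (h.pl_mono hs (sub_pl hUs) hR (by omega)).trans hT'c.2.2.1.1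
    · right
      exact hT'S.trans (h.pl_mono hs hS (sub_pl hUs) (by omega))
  have hch : Ch V j (insert T' (s.erase T)) := by
    refine ⟨?_, ?_⟩
    · intro U hU
      rcases Finset.mem_insert.1 hU with rfl | hU
      · exact h.fa_of hT'c.2.1 (hT'c.2.2.1.1 hRf.2) (by omega) (by omega)
      · exact hs.1 U (Finset.mem_of_mem_erase hU)
    · intro U hU W hW
      rcases Finset.mem_insert.1 hU with hU1 | hU
      · rcases Finset.mem_insert.1 hW with hW1 | hW
        · left; rw [hU1, hW1]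
        · rw [hU1]; exact (hcmp W hW).symm
      · rcases Finset.mem_insert.1 hW with hW1 | hW
        · rw [hW1]; exact hcmp U hU
        · exact hs.2 U (Finset.mem_of_mem_erase hU) W (Finset.mem_of_mem_erase hW)
  have hcard : (insert T' (s.erase T)).card = m := by
    rw [Finset.card_insert_of_notMem hT'e, Finset.card_erase_of_mem hT, hm]
    have : 0 < s.card := Finset.card_pos.2 ⟨T, hT⟩
    omega
  refine ⟨insert T' (s.erase T), ⟨mem_Fl.2 ⟨hcard, hch⟩, ?_, Finset.subset_insert _ _⟩, ?_⟩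
  · intro hc
    apply hT's
    rw [← hc]
    exact Finset.mem_insert_self _ _
  · rintro s' ⟨hs', hne, hsub⟩
    obtain ⟨hm', hch'⟩ := mem_Fl.1 hs'
    -- the element of rank `rk T` of `s'`
    obtain ⟨T'', hT'', hT''r⟩ := h.full hch' hm' (rk V T) (by omega) (by omega)
    have hT''s : T'' ∈ s' := by
      rcases mem_pl.1 hT'' with h1 | h1 | h1
      · rw [h1, h.rj] at hT''r
        omega
      · rw [h1, h.ru] at hT''r
        omega
      · exact h1
    have hT''e : T'' ∉ s.erase T := fun hc => herk T'' hc hT''r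
    have heq : s' = insert T'' (s.erase T) := by
      symm
      apply Finset.eq_of_subset_of_card_le
      · intro U hU
        rcases Finset.mem_insert.1 hU with rfl | hU
        · exact hT''s
        · exact hsub hU
      · rw [Finset.card_insert_of_notMem hT''e, Finset.card_erase_of_mem hT, hm, hm']
        have : 0 < s.card := Finset.card_pos.2 ⟨T, hT⟩
        omega
    have hT''T : T'' ≠ T := by
      intro hc
      apply hne
      rw [heq, hc, Finset.insert_erase hT]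
    have hmem : ∀ U ∈ pl j s, rk V U ≠ rk V T → U ∈ pl j s' := by
      intro U hU hr
      rcases mem_pl.1 hU with h1 | h1 | h1
      · exact mem_pl.2 (Or.inl h1)
      · exact mem_pl.2 (Or.inr (Or.inl h1))
      · apply sub_pl
        apply hsub
        apply Finset.mem_erase_of_ne_of_mem _ h1
        rintro rfl
        exact hr rfl
    have hR'' : R ⊆ T'' := h.pl_mono hch' (hmem R hR (by omega)) hT'' (by omega)
    have hS'' : T'' ⊆ S := h.pl_mono hch' hT'' (hmem S hS (by omega)) (by omega)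
    have hcov'' : Cov V R T'' := ⟨hRf.1, (h.pl_face hch' hT'').1, ⟨hR'', fun hc => by
      have : R = T'' := Set.Subset.antisymm hR'' hc
      rw [this] at hRr
      omega⟩, by omega⟩
    have := huniq T'' ⟨⟨hcov'', hS''⟩, hT''T⟩
    rw [heq, this]

end

theorem t : TaskN5 := by
  intro hG2 hG3 hG4 _ ι E _ _ _ _ V j m hV hspan hfin hm
  have hfu : Face V (Set.univ : Set ι) := ⟨0, fun i => le_rfl, fun i => by simp⟩
  have hru : rk V (Set.univ : Set ι) = m + 2 := by
    unfold rk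
    rw [Set.image_univ, hspan, finrank_top, hfin]
  have hk : ∃ k, k ≠ j := by
    by_contra hcon
    push Not at hcon
    have h1 : Set.range V ⊆ {V j} := by
      rintro _ ⟨k, rfl⟩
      rw [hcon k]
      rfl
    have h2 : Module.finrank ℝ (Submodule.span ℝ (Set.range V)) ≤ 1 := by
      refine (Submodule.finrank_mono (Submodule.span_mono h1)).trans ?_
      exact finrank_span_le_card {V j} |>.trans (by simp)
    rw [hspan, finrank_top, hfin] at h2
    omega
  have hVj : V j ≠ 0 := by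
    obtain ⟨k, hk⟩ := hk
    obtain ⟨l, -, hl⟩ := hV k
    intro h0
    have h1 : j ∈ ({k} : Set ι) := (hl j).2 (by rw [h0, map_zero])
    exact hk (Set.mem_singleton_iff.1 h1).symm
  have hrj : rk V {j} = 1 := by
    unfold rk
    rw [Set.image_singleton]
    exact finrank_span_singleton hVj
  have h : Ctx V j m :=
    { g2 := fun S T hS hT => (hG2 ι E V S T hS hT).2.1
      g3 := fun R S hR hS hRS => (hG3 ι E V R S hR hS hRS).1
      g4 := fun R S hR hS hRS hr T hc hTS => hG4 ι E V R S hR hS hRS hr T hc hTS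
      fj := hV j
      fu := hfu
      rj := hrj
      ru := hru }
  refine ⟨⟨?_, ?_⟩, ?_, ?_, ?_⟩
  · intro s hs
    exact (mem_Fl.1 hs).1
  · intro s hs T hT
    exact h.two (mem_Fl.1 hs).2 (mem_Fl.1 hs).1 hT
  · intro s hs T hT
    exact h.fa_rk ((mem_Fl.1 hs).2.1 T hT)
  · intro s hs
    obtain ⟨hc, hch⟩ := mem_Fl.1 hs
    obtain ⟨U, hU, hUr⟩ := h.full hch hc (m + 1) (by omega) (by omega)
    have hUs : U ∈ s := by
      rcases mem_pl.1 hU with h1 | h1 | h1
      · rw [h1, h.rj] at hUr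
        omega
      · rw [h1, h.ru] at hUr
        omega
      · exact h1
    refine ⟨U, hUs, hUr, fun T' hT' => ?_⟩
    apply h.pl_mono hch (sub_pl hT') hU
    have := (h.fa_rk (hch.1 T' hT')).2
    omega
  · intro c hc1 hc2
    have hch : Ch V j c := ⟨hc1, hc2⟩
    have hle := h.card_le hch
    obtain ⟨s, h1, h2, h3⟩ := h.extend (m - c.card) c hch (by omega)
    exact ⟨s, mem_Fl.2 ⟨h2, h1⟩, h3⟩

end Pool.Agent.H242R3.ES.N5H174
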